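import Pool.Agent.H24.RCN.Targets

/-! NOR: the norms of the factors -/

set_option autoImplicit false

open NumberField Pool.Agent.H24.RCN

namespace Pool.Agent.H41.RCN

/-- an automorphism which raises a root of unity to a power -/
theorem exists_aut {F : Type} [Field F] [NumberField F] (d κ : ℕ) (hd : d.Prime) (hκ : κ.Prime)
    (hne : κ ≠ d) [IsCyclotomicExtension {d * κ} ℚ F] (ζ : F) (hζ : IsPrimitiveRoot ζ d)
    (i : ℕ) (hi1 : 1 ≤ i) (hid : i < d) : ∃ τ : F ≃ₐ[ℚ] F, τ ζ = ζ ^ i := by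
  have hn0 : 0 < d * κ := Nat.mul_pos hd.pos hκ.pos
  haveI : NeZero (d * κ) := ⟨hn0.ne'⟩
  haveI : NeZero d := ⟨hd.ne_zero⟩
  have hcop : Nat.Coprime d κ := (Nat.coprime_primes hd hκ).2 (Ne.symm hne)
  obtain ⟨a, ha1, ha2⟩ := Nat.chineseRemainder hcop i 1
  have had : Nat.Coprime a d := by
    rw [Nat.coprime_comm, hd.coprime_iff_not_dvd]
    intro h
    have h1 : d ∣ i := (Nat.ModEq.dvd_iff ha1 dvd_rfl).1 h
    exact absurd (Nat.le_of_dvd (by omega) h1) (by omega)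
  have haκ : Nat.Coprime a κ := by
    rw [Nat.coprime_comm, hκ.coprime_iff_not_dvd]
    intro h
    have h1 : κ ∣ 1 := (Nat.ModEq.dvd_iff ha2 dvd_rfl).1 h
    exact hκ.one_lt.ne' (Nat.dvd_one.1 h1)
  have han : Nat.Coprime a (d * κ) := Nat.Coprime.mul_right had haκ
  have hμ := IsCyclotomicExtension.zeta_spec (d * κ) ℚ F
  have hμa : IsPrimitiveRoot (IsCyclotomicExtension.zeta (d * κ) ℚ F ^ a) (d * κ) :=
    hμ.pow_of_coprime a han
  have hirr : Irreducible (Polynomial.cyclotomic (d * κ) ℚ) :=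
    Polynomial.cyclotomic.irreducible_rat hn0
  have hτ := IsCyclotomicExtension.fromZetaAut_spec hμa hirr
  refine ⟨IsCyclotomicExtension.fromZetaAut hμa hirr, ?_⟩
  have hμκ : IsPrimitiveRoot (IsCyclotomicExtension.zeta (d * κ) ℚ F ^ κ) d :=
    hμ.pow hn0 (Nat.mul_comm d κ)
  obtain ⟨s, -, hs⟩ := hμκ.eq_pow_of_pow_eq_one hζ.pow_eq_one
  have h1 : IsCyclotomicExtension.fromZetaAut hμa hirr ζ = ζ ^ a := by
    rw [← hs, map_pow, map_pow, hτ]
    ring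
  have ha1' : a % d = i % d := ha1
  rw [h1, ← pow_mod_orderOf ζ a, ← pow_mod_orderOf ζ i, ← hζ.eq_orderOf, ha1']

theorem pf_NOR (h1 : T_PRD) : T_NOR := by
  intro F _ _ r e d p k κ _ ζ hD hζ i hi1 hid
  have hd := hD.hd
  have hκ := hD.hκ
  set q : ℕ := r ^ e with hq
  have hζF : IsPrimitiveRoot (ζ : F) d := hζ.map_of_injective (f := algebraMap (𝓞 F) F)
    (RingOfIntegers.coe_injective)
  have hinv : ∀ j : ℕ, 1 ≤ j → j < d → Algebra.norm ℤ (1 - ζ ^ j * (q : 𝓞 F)) =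
      Algebra.norm ℤ (1 - ζ * (q : 𝓞 F)) := by
    intro j hj1 hjd
    obtain ⟨τ, hτ⟩ := exists_aut d κ hd hκ hD.hκd (ζ : F) hζF j hj1 hjd
    have h2 : ((Algebra.norm ℤ (1 - ζ ^ j * (q : 𝓞 F)) : ℤ) : ℚ) =
        ((Algebra.norm ℤ (1 - ζ * (q : 𝓞 F)) : ℤ) : ℚ) := by
      rw [Algebra.coe_norm_int, Algebra.coe_norm_int,
        ← Algebra.norm_eq_of_algEquiv τ ((1 - ζ * (q : 𝓞 F) : 𝓞 F) : F)]
      congr 1
      simp [hτ]
    exact_mod_cast h2
  have hprod : (Algebra.norm ℤ (1 - ζ * (q : 𝓞 F))) ^ (d - 1) =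
      ((p : ℤ) ^ k) ^ ((d - 1) * (κ - 1)) := by
    have h3 := h1 (𝓞 F) d q ζ hd hζ
    have h4 : ∑ i ∈ Finset.range d, (q : 𝓞 F) ^ i = algebraMap ℤ (𝓞 F) ((p : ℤ) ^ k) := by
      have h5 := hD.eq
      have h6 : ((∑ i ∈ Finset.range d, q ^ i : ℕ) : 𝓞 F) = ((p ^ k : ℕ) : 𝓞 F) := by
        rw [← hq] at h5
        rw [h5]
      push_cast at h6
      rw [h6]
      simp
    rw [h4] at h3
    have h7 := congrArg (Algebra.norm ℤ) h3
    rw [map_prod, Algebra.norm_algebraMap, RingOfIntegers.rank] at h7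
    have h8 : ∏ i ∈ Finset.range (d - 1), Algebra.norm ℤ (1 - ζ ^ (i + 1) * (q : 𝓞 F)) =
        ∏ _i ∈ Finset.range (d - 1), Algebra.norm ℤ (1 - ζ * (q : 𝓞 F)) := by
      refine Finset.prod_congr rfl fun j hj => ?_
      rw [Finset.mem_range] at hj
      exact hinv (j + 1) (by omega) (by omega)
    rw [h8, Finset.prod_const, Finset.card_range] at h7
    rw [h7]
    congr 1
    haveI : NeZero (d * κ) := ⟨(Nat.mul_pos hd.pos hκ.pos).ne'⟩
    rw [IsCyclotomicExtension.finrank F (Polynomial.cyclotomic.irreducible_rat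
      (Nat.mul_pos hd.pos hκ.pos)),
      Nat.totient_mul ((Nat.coprime_primes hd hκ).2 (Ne.symm hD.hκd)),
      Nat.totient_prime hd, Nat.totient_prime hκ]
  rw [Ideal.absNorm_span_singleton, hinv i hi1 hid]
  have h9 := congrArg Int.natAbs hprod
  rw [Int.natAbs_pow, Int.natAbs_pow, Int.natAbs_pow, Int.natAbs_natCast] at h9
  have h10 : (p ^ k) ^ ((d - 1) * (κ - 1)) = (p ^ (k * (κ - 1))) ^ (d - 1) := by
    rw [← pow_mul, ← pow_mul]
    congr 1
    ring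
  rw [h10] at h9
  exact Nat.pow_left_injective (by have := hd.two_le; omega : d - 1 ≠ 0) h9

end Pool.Agent.H41.RCN
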