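import Pool.Agent.H24.RCN.Targets

/-! NPR: the norm and the fixed field of a cyclic extension -/

set_option autoImplicit false

open NumberField Pool.Agent.H24.RCN

namespace Pool.Agent.H41.RCN

theorem pf_NPR : T_NPR := by
  classical
  intro F L _ _ _ _ _ κ σ J hκ hE
  haveI : FiniteDimensional F L := by
    refine Module.finite_of_finrank_pos ?_
    rw [hE.deg]
    exact hκ.pos
  haveI : IsGalois F L := hE.gal
  have hord : orderOf σ = κ := by
    rw [orderOf_eq_card_of_forall_mem_zpowers hE.gen, IsGalois.card_aut_eq_finrank, hE.deg]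
  refine ⟨fun x => ?_, fun x hx => ?_⟩
  · rw [Algebra.norm_eq_prod_automorphisms]
    symm
    refine Finset.prod_bij (fun i _ => σ ^ i) (fun i _ => Finset.mem_univ _) ?_ ?_
      (fun i _ => rfl)
    · intro i hi j hj hij
      have h1 := pow_injOn_Iio_orderOf (x := σ)
      refine h1 ?_ ?_ hij
      · rw [hord]
        exact Finset.mem_range.1 hi
      · rw [hord]
        exact Finset.mem_range.1 hj
    · intro τ _
      have h2 := mem_zpowers_iff_mem_range_orderOf.1 (hE.gen τ)
      rw [Finset.mem_image] at h2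
      obtain ⟨i, hi, hi2⟩ := h2
      rw [hord] at hi
      exact ⟨i, hi, hi2⟩
  · have h3 : ∀ τ : L ≃ₐ[F] L, τ x = x := by
      intro τ
      obtain ⟨m, rfl⟩ := hE.gen τ
      have h4 : σ ∈ MulAction.stabilizer (L ≃ₐ[F] L) x := by
        rw [MulAction.mem_stabilizer_iff]
        exact hx
      have h5 := (MulAction.stabilizer (L ≃ₐ[F] L) x).zpow_mem h4 m
      rw [MulAction.mem_stabilizer_iff] at h5
      exact h5
    exact (IsGalois.mem_bot_iff_fixed x).2 h3 |>.imp fun y hy => by simpa using hy

end Pool.Agent.H41.RCN
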